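import Pool.Agent.Q207.HG.Stm

/-!
# Project HG, job HG5: the grading operator in a basis adapted to the Hodge filtration
-/

set_option autoImplicit false
open Matrix Finset
namespace Q249.HG
open Q207.HG

theorem grd : Q207.HG.S_Grd := by
  intro I _ _ lev Z Φ H hZ hF hH a b hab
  have hZZ : Z * Z⁻¹ = 1 := Matrix.mul_nonsing_inv Z hZ
  have hstab : ∀ q : ℤ, ∀ v ∈ (⨆ q' : {q' : ℤ // q ≤ q'}, H q'),
      v ᵥ* Φ ∈ (⨆ q' : {q' : ℤ // q ≤ q'}, H q') := by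
    intro q v hv
    have h1 : (⨆ q' : {q' : ℤ // q ≤ q'}, H q') ≤
        Submodule.comap (Matrix.vecMulLinear Φ) (⨆ q' : {q' : ℤ // q ≤ q'}, H q') := by
      apply iSup_le
      rintro ⟨q', hq'⟩ u hu
      rw [Submodule.mem_comap]
      have h2 : u ᵥ* Φ = (q' : ℂ) • u := hH q' u hu
      have h3 : (Matrix.vecMulLinear Φ) u = u ᵥ* Φ := rfl
      rw [h3, h2]
      exact Submodule.smul_mem _ _ (Submodule.mem_iSup_of_mem ⟨q', hq'⟩ hu)
    exact h1 hv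
  have hdec : (⨆ q' : {q' : ℤ // lev a ≤ q'}, H q') ≤
      H (lev a) ⊔ (⨆ q' : {q' : ℤ // lev a + 1 ≤ q'}, H q') := by
    apply iSup_le
    rintro ⟨q', hq'⟩
    rcases eq_or_lt_of_le hq' with h | h
    · subst h
      exact le_sup_left
    · refine le_trans ?_ le_sup_right
      exact le_iSup (fun q' : {q' : ℤ // lev a + 1 ≤ q'} => H q') ⟨q', by omega⟩
  have hZa : Z a ∈ (⨆ q' : {q' : ℤ // lev a ≤ q'}, H q') := by
    rw [hF]
    exact Submodule.subset_span ⟨a, le_rfl, rfl⟩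
  obtain ⟨h, hh, f, hf, hsum⟩ := Submodule.mem_sup.mp (hdec hZa)
  have hw : Z a ᵥ* Φ - (lev a : ℂ) • Z a ∈ (⨆ q' : {q' : ℤ // lev a + 1 ≤ q'}, H q') := by
    have e : Z a ᵥ* Φ - (lev a : ℂ) • Z a = f ᵥ* Φ - (lev a : ℂ) • f := by
      rw [← hsum, Matrix.add_vecMul, hH _ h hh, smul_add]
      abel
    rw [e]
    exact Submodule.sub_mem _ (hstab _ f hf) (Submodule.smul_mem _ _ hf)
  rw [hF] at hw
  have hcoord : ∀ v ∈ Submodule.span ℂ {v | ∃ a', lev a + 1 ≤ lev a' ∧ v = Z a'},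
      (v ᵥ* Z⁻¹) b = 0 := by
    intro v hv
    induction hv using Submodule.span_induction with
    | mem x hx =>
      obtain ⟨a', ha', rfl⟩ := hx
      have h1 : (Z a' ᵥ* Z⁻¹) b = (Z * Z⁻¹) a' b := by
        rw [Matrix.mul_apply_eq_vecMul]
      rw [h1, hZZ, Matrix.one_apply_ne]
      rintro rfl
      omega
    | zero => simp
    | add x y _ _ hx hy => rw [Matrix.add_vecMul, Pi.add_apply, hx, hy, add_zero]
    | smul c x _ hx => rw [Matrix.smul_vecMul, Pi.smul_apply, hx, smul_zero]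
  have h0 := hcoord _ hw
  rw [Matrix.sub_vecMul, Matrix.smul_vecMul, Pi.sub_apply, Pi.smul_apply] at h0
  have h1 : (Z a ᵥ* Φ ᵥ* Z⁻¹) b = (Z * Φ * Z⁻¹) a b := by
    rw [Matrix.mul_apply_eq_vecMul, Matrix.mul_apply_eq_vecMul]
  have h2 : (Z a ᵥ* Z⁻¹) b = (Z * Z⁻¹) a b := by
    rw [Matrix.mul_apply_eq_vecMul]
  rw [h1, h2, hZZ, Matrix.one_apply, smul_eq_mul] at h0
  rw [sub_eq_zero.mp h0]
  split_ifs <;> simp

end Q249.HG
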